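import Pool.Agent.Q272.MF.Digits

/-!
For every `d ≥ 2` the set of growth exponents `α` of Weyl sums of degree `d` for which the level
set has positive Hausdorff dimension contains a set of positive measure, namely `(4/5, 1)`.
-/

namespace Pool.Agent.Results.MP_3c4aa6_nt.PositiveMeasure

open Filter Asymptotics MeasureTheory

/-- The Weyl sum `S_d(x; N) = ∑_{n=1}^N exp(2πi (x_1 n + x_2 n^2 + ... + x_d n^d))`; the
coordinates `x_1, ..., x_d` are indexed by `Fin d`, so `x_{j+1}` is `x j`. -/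
noncomputable def weylSum (d : ℕ) (x : EuclideanSpace ℝ (Fin d)) (N : ℕ) : ℂ :=
  ∑ n ∈ Finset.Icc 1 N,
    Complex.exp (2 * Real.pi * Complex.I * ∑ j : Fin d, (x j : ℂ) * (n : ℂ) ^ ((j : ℕ) + 1))

/-- The growth exponent: the infimum of the `s > 0` with `|S_d(x; N)| = O(N^s)`. -/
noncomputable def growthExponent (d : ℕ) (x : EuclideanSpace ℝ (Fin d)) : ℝ :=
  sInf {s : ℝ | 0 < s ∧ (fun N : ℕ => ‖weylSum d x N‖) =O[atTop] fun N : ℕ => (N : ℝ) ^ s}

/-- The level set `Ω_α^{(d)}` inside the unit torus `[0,1)^d`. -/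
def Omega (d : ℕ) (α : ℝ) : Set (EuclideanSpace ℝ (Fin d)) :=
  {x | (∀ j, 0 ≤ x j ∧ x j < 1) ∧ growthExponent d x = α}

open Q272.MF in
theorem weylSum_single (d : ℕ) (hd : 2 ≤ d) (t : ℝ) (N : ℕ) :
    weylSum d (EuclideanSpace.single ⟨1, hd⟩ t) N = T t N := by
  unfold weylSum T
  rw [Finset.range_eq_Ico, ← Finset.Ico_add_one_right_eq_Icc]
  rw [Finset.sum_Ico_eq_sum_range, Finset.sum_Ico_eq_sum_range]
  simp only [Nat.add_sub_cancel, Nat.sub_zero]
  refine Finset.sum_congr rfl fun n _ => ?_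
  unfold e
  congr 1
  rw [Finset.sum_eq_single (⟨1, hd⟩ : Fin d)]
  · simp
    ring
  · intro j _ hj
    simp [hj]
  · intro h
    exact absurd (Finset.mem_univ _) h

open Q272.MF in
theorem growthExponent_single (d : ℕ) (hd : 2 ≤ d) {τ α : ℝ} {ρ : ℕ} (hτ : 5 ≤ τ)
    (hα : α = 1 - 1 / τ) (h1 : τ < ρ) (h2 : (ρ : ℝ) ≤ τ + 1) {t : ℝ} (ht : Good τ ρ t) :
    growthExponent d (EuclideanSpace.single ⟨1, hd⟩ t) = α := by
  have hα0 : 0 < α := by
    rw [hα]
    have : 1 / τ ≤ 1 / 5 := one_div_le_one_div_of_le (by norm_num) hτ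
    linarith
  unfold growthExponent
  simp_rw [weylSum_single]
  apply le_antisymm
  · apply le_of_forall_gt_imp_ge_of_dense
    intro s hs
    apply csInf_le
    · exact ⟨0, fun s hs => hs.1.le⟩
    · exact ⟨hα0.trans hs, isBigO_of_gt hτ hα h1 h2 ht hs⟩
  · apply le_csInf
    · exact ⟨α + 1, by linarith, isBigO_of_gt hτ hα h1 h2 ht (by linarith)⟩
    · rintro s ⟨hs0, hs⟩
      by_contra hlt
      rw [not_le] at hlt
      exact lower_growth hτ hα h1 ht hs0.le hlt hs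

open Q272.MF in
theorem dimH_Omega_pos (d : ℕ) (hd : 2 ≤ d) {α : ℝ} (hα : α ∈ Set.Ico (4 / 5 : ℝ) 1) :
    0 < dimH (Omega d α) := by
  have h1α : 0 < 1 - α := by linarith [hα.2]
  set τ : ℝ := 1 / (1 - α) with hτd
  have hτ : 5 ≤ τ := by
    rw [hτd, le_div_iff₀ h1α]; linarith [hα.1]
  have hα' : α = 1 - 1 / τ := by rw [hτd]; field_simp; ring
  set ρ : ℕ := ⌊τ⌋₊ + 1 with hρ
  have h1 : τ < ρ := by rw [hρ]; push_cast; exact Nat.lt_floor_add_one τ
  have h2 : (ρ : ℝ) ≤ τ + 1 := by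
    rw [hρ]; push_cast
    have := Nat.floor_le (by linarith : 0 ≤ τ)
    linarith
  have hpos := dim_pos hτ h1 h2
  have hsub : Set.range (fun y => Real.ofDigits (dig τ ρ y)) ⊆
      (fun x : EuclideanSpace ℝ (Fin d) => x ⟨1, hd⟩) '' Omega d α := by
    rintro _ ⟨y, rfl⟩
    refine ⟨EuclideanSpace.single ⟨1, hd⟩ (Real.ofDigits (dig τ ρ y)), ⟨?_, ?_⟩, by simp⟩
    · intro j
      by_cases hj : j = ⟨1, hd⟩
      · subst hj
        simpa using dig_mem hτ h1 y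
      · simp [hj]
    · exact growthExponent_single d hd hτ hα' h1 h2 (good_dig hτ h1 y)
  have hlip : LipschitzWith 1 (fun x : EuclideanSpace ℝ (Fin d) => x ⟨1, hd⟩) :=
    LipschitzWith.of_dist_le_mul fun x y => by
      rw [NNReal.coe_one, one_mul, EuclideanSpace.dist_eq, Real.dist_eq]
      apply Real.le_sqrt_of_sq_le
      have h3 : |x ⟨1, hd⟩ - y ⟨1, hd⟩| ^ 2 = dist (x ⟨1, hd⟩) (y ⟨1, hd⟩) ^ 2 := by
        rw [Real.dist_eq]
      rw [h3]
      exact Finset.single_le_sum (f := fun i => dist (x i) (y i) ^ 2)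
        (fun i _ => sq_nonneg _) (Finset.mem_univ (⟨1, hd⟩ : Fin d))
  calc 0 < dimH (Set.range fun y => Real.ofDigits (dig τ ρ y)) := hpos
    _ ≤ dimH ((fun x : EuclideanSpace ℝ (Fin d) => x ⟨1, hd⟩) '' Omega d α) := dimH_mono hsub
    _ ≤ dimH (Omega d α) := hlip.dimH_image_le _

/-- For every `d ≥ 2` there is a subset of `[0,1]` of positive Lebesgue measure all of whose
elements `α` satisfy `dim Ω_α^{(d)} > 0`; the interval `[4/5, 1)` is such a set. -/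
theorem result : ∀ d : ℕ, 2 ≤ d →
    (∀ α ∈ Set.Ico (4 / 5 : ℝ) 1, 0 < dimH (Omega d α)) ∧
    ∃ A : Set ℝ, A ⊆ Set.Icc 0 1 ∧ MeasurableSet A ∧ 0 < volume A ∧
      ∀ α ∈ A, 0 < dimH (Omega d α) := by
  intro d hd
  refine ⟨fun α hα => dimH_Omega_pos d hd hα, Set.Ico (4 / 5 : ℝ) 1, ?_, measurableSet_Ico, ?_,
    fun α hα => dimH_Omega_pos d hd hα⟩
  · intro x hx
    exact ⟨by linarith [hx.1], hx.2.le⟩
  · rw [Real.volume_Ico]
    norm_num

end Pool.Agent.Results.MP_3c4aa6_nt.PositiveMeasure
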